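import Pool.Agent.H992.PM.JDefs

/-!
# JM/JPEEL: a class is independent of slower functions, weighted version (MP_a28cf0_nt)
-/

set_option autoImplicit false
open MeasureTheory Filter Topology Complex ProbabilityTheory
open scoped ContDiff ENNReal

namespace Pool.Agent.H161.JM

open Pool.Agent.W745.RW (TF)
open Pool.Agent.N661.BR (MW IsRandomWave)
open Pool.Agent.N661.BH (HP)
open Pool.Agent.N814.BHM (P mass)
open Pool.Agent.N814.BHASM (Hyp probP)
open Pool.Agent.H992.LB (eγ eX eX_norm eX_meas eγ_norm eγ_meas)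
open Pool.Agent.H992.SF
open Pool.Agent.H992.PM (JConv S_JPEEL)
open Pool.Agent.H289.SF (sA sA_eX)
open Pool.Agent.H385.SF (E E_sub E_zero E_vh vh)

noncomputable section

variable {d : ℕ}

/-! ### Algebra of the characters -/

theorem eX_E (lam : ℝ) (u : ℂ → ℝ) (τ : ℂ →₀ ℝ) (p : ℂ × (ℝ × Bool)) :
    eX lam u τ p = E (sA lam u p) τ := (sA_eX lam u τ p).symm

theorem E_add (a : (ℂ →₀ ℝ) →+ ℝ) (τ τ' : ℂ →₀ ℝ) : E a (τ + τ') = E a τ * E a τ' := by
  unfold E
  rw [← Complex.exp_add, map_add]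
  congr 1
  push_cast
  ring

theorem eXJ_norm (lam : Fin d → ℝ) (u : Fin d → ℂ → ℝ) (τ : Fin d → ℂ →₀ ℝ)
    (p : ℂ × (ℝ × Bool)) : ‖eXJ lam u τ p‖ = 1 := by
  unfold eXJ
  rw [norm_prod]
  exact Finset.prod_eq_one fun i _ => eX_norm _ _ _ p

theorem eXJ_meas {lam : Fin d → ℝ} {u : Fin d → ℂ → ℝ} (hu : ∀ i, ContDiffOn ℝ ∞ (u i) HP)
    (τ : Fin d → ℂ →₀ ℝ) : Measurable (eXJ lam u τ) := by
  unfold eXJ
  exact Finset.measurable_fun_prod _ fun i _ => eX_meas (hu i) _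

theorem eXJ_add (lam : Fin d → ℝ) (u : Fin d → ℂ → ℝ) (τ σ : Fin d → ℂ →₀ ℝ)
    (p : ℂ × (ℝ × Bool)) :
    eXJ lam u (fun i => τ i + σ i) p = eXJ lam u τ p * eXJ lam u σ p := by
  unfold eXJ
  rw [← Finset.prod_mul_distrib]
  refine Finset.prod_congr rfl fun i _ => ?_
  rw [eX_E, eX_E, eX_E, E_add]

theorem eXJ_sub (lam : Fin d → ℝ) (u : Fin d → ℂ → ℝ) (τ σ : Fin d → ℂ →₀ ℝ)
    (p : ℂ × (ℝ × Bool)) :
    eXJ lam u (fun i => τ i - σ i) p = eXJ lam u τ p * (starRingEnd ℂ) (eXJ lam u σ p) := by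
  unfold eXJ
  rw [map_prod, ← Finset.prod_mul_distrib]
  refine Finset.prod_congr rfl fun i _ => ?_
  rw [eX_E, eX_E, eX_E, E_sub]

theorem eJ_norm (τ : Fin d → ℂ →₀ ℝ) (F : Fin d → MW) : ‖eJ τ F‖ = 1 := by
  unfold eJ
  rw [norm_prod]
  exact Finset.prod_eq_one fun i _ => eγ_norm _ _

theorem eJ_meas (τ : Fin d → ℂ →₀ ℝ) : Measurable (eJ τ) := by
  unfold eJ
  exact Finset.measurable_fun_prod _ fun i _ => (eγ_meas (τ i)).comp (measurable_pi_apply i)

theorem eJ_zero (F : Fin d → MW) : eJ (0 : Fin d → ℂ →₀ ℝ) F = 1 := by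
  unfold eJ
  refine Finset.prod_eq_one fun i _ => ?_
  show eγ 0 (F i) = 1
  rw [← E_vh, E_zero]

theorem eJ_sub (τ σ : Fin d → ℂ →₀ ℝ) (F : Fin d → MW) :
    eJ (fun i => τ i - σ i) F = eJ τ F * (starRingEnd ℂ) (eJ σ F) := by
  unfold eJ
  rw [map_prod, ← Finset.prod_mul_distrib]
  refine Finset.prod_congr rfl fun i _ => ?_
  rw [← E_vh, ← E_vh, ← E_vh, E_sub]

theorem int_eJ (γ : Measure MW) [IsProbabilityMeasure γ] (τ : Fin d → ℂ →₀ ℝ) :
    ∫ F, eJ τ F ∂(pr d γ) = ∏ i, ∫ f, eγ (τ i) f ∂γ := by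
  unfold eJ pr
  exact integral_fintype_prod_eq_prod (𝕜 := ℂ) (fun i => eγ (τ i))

/-! ### Squares -/

theorem sq_sum {n : ℕ} (c a : Fin n → ℂ) : ((‖∑ m, c m * a m‖ ^ 2 : ℝ) : ℂ) =
    ∑ m, ∑ m', (c m * (starRingEnd ℂ) (c m')) * (a m * (starRingEnd ℂ) (a m')) := by
  rw [← Complex.normSq_eq_norm_sq, ← Complex.mul_conj, map_sum, Finset.sum_mul_sum]
  refine Finset.sum_congr rfl fun m _ => Finset.sum_congr rfl fun m' _ => ?_
  rw [map_mul]
  ring

/-- the weighted Cauchy–Schwarz inequality -/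
theorem wcs {X : Type*} [MeasurableSpace X] (μ : Measure X) (w s : X → ℝ) (hw : ∀ x, 0 ≤ w x)
    (h0 : Integrable w μ) (h1 : Integrable (fun x => w x * s x) μ)
    (h2 : Integrable (fun x => w x * s x ^ 2) μ) :
    (∫ x, w x * s x ∂μ) ^ 2 ≤ (∫ x, w x ∂μ) * ∫ x, w x * s x ^ 2 ∂μ := by
  have key : ∀ t : ℝ, 0 ≤ (∫ x, w x ∂μ) * (t * t) + (-2 * ∫ x, w x * s x ∂μ) * t +
      ∫ x, w x * s x ^ 2 ∂μ := by
    intro t
    have e1 : 0 ≤ ∫ x, (w x * (t * t) + (w x * s x) * (-2 * t) + w x * s x ^ 2) ∂μ := by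
      refine integral_nonneg fun x => ?_
      have e2 : w x * (t * t) + (w x * s x) * (-2 * t) + w x * s x ^ 2 = w x * (s x - t) ^ 2 := by
        ring
      show 0 ≤ w x * (t * t) + (w x * s x) * (-2 * t) + w x * s x ^ 2
      rw [e2]
      exact mul_nonneg (hw x) (sq_nonneg _)
    have i1 : Integrable (fun x => w x * (t * t) + (w x * s x) * (-2 * t)) μ :=
      (h0.mul_const _).add (h1.mul_const _)
    rw [integral_add i1 h2, integral_add (h0.mul_const _) (h1.mul_const _), integral_mul_const,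
      integral_mul_const] at e1
    linarith
  have hd := discrim_le_zero key
  unfold discrim at hd
  nlinarith

/-- **JM/JPEEL** -/
theorem jpeel (h1 : S_RZ) (h2 : S_CORE) : S_JPEEL := by
  intro d Ω lam u hd H hst γ hγp hγ A S hAS ψ hψ hψ0 hconv χ hχ hK σ hσ τ₀ hτ₀
  obtain ⟨K, hK⟩ := hK
  have hPr := probP (H ⟨0, hd⟩)
  have hpr : IsProbabilityMeasure (pr d γ) := by
    unfold pr
    infer_instance
  -- measurability and bounds of the weights
  have hψm : Measurable fun p : ℂ × (ℝ × Bool) => ψ p.1 :=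
    hψ.1.continuous.measurable.comp measurable_fst
  have hχm : Measurable fun p : ℂ × (ℝ × Bool) => χ p.1 :=
    hχ.1.continuous.measurable.comp measurable_fst
  obtain ⟨Cψ, hCψ⟩ := hψ.1.continuous.bounded_above_of_compact_support hψ.2.1
  obtain ⟨Cχ, hCχ⟩ := hχ.1.continuous.bounded_above_of_compact_support hχ.2.1
  have hψi : Integrable (fun p : ℂ × (ℝ × Bool) => ψ p.1) (P Ω) :=
    Integrable.of_bound hψm.aestronglyMeasurable Cψ (Eventually.of_forall fun p => hCψ _)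
  have hXm : ∀ (τ : Fin d → ℂ →₀ ℝ) (n : ℕ),
      Measurable (eXJ (fun i => lam i n) (fun i => u i n) τ) := fun τ n =>
    eXJ_meas (fun i => (H i).sm n) τ
  have hψX : ∀ (τ : Fin d → ℂ →₀ ℝ) (n : ℕ), Integrable (fun p => (ψ p.1 : ℂ) *
      eXJ (fun i => lam i n) (fun i => u i n) τ p) (P Ω) := fun τ n =>
    Integrable.of_bound ((Complex.measurable_ofReal.comp hψm).mul (hXm τ n)).aestronglyMeasurable
      Cψ (Eventually.of_forall fun p => by
        rw [norm_mul, eXJ_norm, mul_one, Complex.norm_real]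
        exact hCψ _)
  have hχX : ∀ (τ : Fin d → ℂ →₀ ℝ) (n : ℕ), Integrable (fun p => (χ p.1 : ℂ) *
      eXJ (fun i => lam i n) (fun i => u i n) τ p) (P Ω) := fun τ n =>
    Integrable.of_bound ((Complex.measurable_ofReal.comp hχm).mul (hXm τ n)).aestronglyMeasurable
      Cχ (Eventually.of_forall fun p => by
        rw [norm_mul, eXJ_norm, mul_one, Complex.norm_real]
        exact hCχ _)
  rw [tendsto_iff_ultrafilter]
  intro g hg
  set Gn : (Fin d → ℂ →₀ ℝ) → ℕ → ℂ := fun τ n => ∫ p, (χ p.1 : ℂ) *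
    eXJ (fun i => lam i n) (fun i => u i n) (fun i => τ i + σ i) p ∂(P Ω) with hGn
  have hGb : ∀ τ n, ‖Gn τ n‖ ≤ Cχ := by
    intro τ n
    refine (norm_integral_le_of_norm_le (integrable_const Cχ)
      (Eventually.of_forall fun p => ?_)).trans ?_
    · rw [norm_mul, eXJ_norm, mul_one, Complex.norm_real]
      exact hCχ _
    · simp
  -- the limits along the ultrafilter
  have hlim : ∀ τ : Fin d → ℂ →₀ ℝ, ∃ L : ℂ, Tendsto (Gn τ) g (𝓝 L) := by
    intro τ
    have h1 : (g.map (Gn τ) : Filter ℂ) ≤ 𝓟 (Metric.closedBall (0:ℂ) Cχ) := by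
      rw [Filter.le_principal_iff, Ultrafilter.coe_map, Filter.mem_map]
      refine Filter.univ_mem' fun n => ?_
      rw [Set.mem_preimage, mem_closedBall_zero_iff]
      exact hGb τ n
    obtain ⟨L, -, hL⟩ := (isCompact_closedBall (0:ℂ) Cχ).ultrafilter_le_nhds _ h1
    exact ⟨L, hL⟩
  choose L hL using hlim
  set m₀ : ℝ := ∫ p, ψ p.1 ∂(P Ω) with hm₀
  have hm₀c : (∫ p, (ψ p.1 : ℂ) ∂(P Ω)) = (m₀ : ℂ) := by
    rw [hm₀, ← integral_complex_ofReal]
  -- the bound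
  have hbound : ∀ (n : ℕ) (c : Fin n → ℂ) (τ : Fin n → {τ : Fin d → ℂ →₀ ℝ // On A τ}),
      ‖∑ m, c m * L (τ m).1‖ ^ 2 ≤
        K ^ 2 * m₀ ^ 2 * ∫ F, ‖∑ m, c m * eJ (τ m).1 F‖ ^ 2 ∂(pr d γ) := by
    intro n c τ
    have t1 : Tendsto (fun l => ‖∑ m, c m * Gn (τ m).1 l‖ ^ 2) g
        (𝓝 (‖∑ m, c m * L (τ m).1‖ ^ 2)) := by
      refine Tendsto.pow (Tendsto.norm ?_) 2
      exact tendsto_finsetSum _ fun m _ => (hL _).const_mul _
    set s : ℕ → ℂ × (ℝ × Bool) → ℝ := fun l p => ‖∑ m, c m *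
      eXJ (fun i => lam i l) (fun i => u i l) (τ m).1 p‖ with hs
    have hsm : ∀ l, Measurable (s l) := fun l =>
      (Finset.measurable_fun_sum _ fun m _ => (hXm (τ m).1 l).const_mul (c m)).norm
    have hsb : ∀ l p, s l p ≤ ∑ m, ‖c m‖ := by
      intro l p
      refine (norm_sum_le _ _).trans (Finset.sum_le_sum fun m _ => ?_)
      rw [norm_mul, eXJ_norm, mul_one]
    have hs0 : ∀ l p, 0 ≤ s l p := fun l p => norm_nonneg _
    have hi1 : ∀ l, Integrable (fun p => ψ p.1 * s l p) (P Ω) := fun l =>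
      Integrable.of_bound (hψm.mul (hsm l)).aestronglyMeasurable (Cψ * ∑ m, ‖c m‖)
        (Eventually.of_forall fun p => by
          rw [norm_mul]
          refine mul_le_mul (hCψ _) ?_ (norm_nonneg _) ((norm_nonneg _).trans (hCψ p.1))
          rw [Real.norm_eq_abs, abs_of_nonneg (hs0 l p)]
          exact hsb l p)
    have hi2 : ∀ l, Integrable (fun p => ψ p.1 * s l p ^ 2) (P Ω) := fun l =>
      Integrable.of_bound (hψm.mul ((hsm l).pow_const 2)).aestronglyMeasurable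
        (Cψ * (∑ m, ‖c m‖) ^ 2)
        (Eventually.of_forall fun p => by
          rw [norm_mul]
          refine mul_le_mul (hCψ _) ?_ (norm_nonneg _) ((norm_nonneg _).trans (hCψ p.1))
          rw [Real.norm_eq_abs, abs_of_nonneg (by positivity)]
          exact pow_le_pow_left₀ (hs0 l p) (hsb l p) 2)
    -- the pre-limit inequality
    have t2 : ∀ l, ‖∑ m, c m * Gn (τ m).1 l‖ ^ 2 ≤ K ^ 2 * (m₀ * ∫ p, ψ p.1 * s l p ^ 2 ∂(P Ω)) := by
      intro l
      have e1 : ∑ m, c m * Gn (τ m).1 l = ∫ p, (χ p.1 : ℂ) * ((∑ m, c m *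
          eXJ (fun i => lam i l) (fun i => u i l) (τ m).1 p) *
          eXJ (fun i => lam i l) (fun i => u i l) σ p) ∂(P Ω) := by
        have e2 : ∀ p, (χ p.1 : ℂ) * ((∑ m, c m *
            eXJ (fun i => lam i l) (fun i => u i l) (τ m).1 p) *
            eXJ (fun i => lam i l) (fun i => u i l) σ p) = ∑ m, c m * ((χ p.1 : ℂ) *
              eXJ (fun i => lam i l) (fun i => u i l) (fun i => (τ m).1 i + σ i) p) := by
          intro p
          rw [Finset.sum_mul, Finset.mul_sum]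
          refine Finset.sum_congr rfl fun m _ => ?_
          rw [eXJ_add]
          ring
        simp_rw [e2]
        rw [integral_finsetSum _ fun m _ => (hχX _ l).const_mul _]
        exact Finset.sum_congr rfl fun m _ => (integral_const_mul _ _).symm
      have e3 : ‖∑ m, c m * Gn (τ m).1 l‖ ≤ K * ∫ p, ψ p.1 * s l p ∂(P Ω) := by
        rw [e1, ← integral_const_mul]
        refine norm_integral_le_of_norm_le ((hi1 l).const_mul K)
          (Eventually.of_forall fun p => ?_)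
        rw [norm_mul, norm_mul, eXJ_norm, mul_one, Complex.norm_real, Real.norm_eq_abs,
          ← mul_assoc]
        exact mul_le_mul_of_nonneg_right (hK _) (norm_nonneg _)
      calc ‖∑ m, c m * Gn (τ m).1 l‖ ^ 2 ≤ (K * ∫ p, ψ p.1 * s l p ∂(P Ω)) ^ 2 :=
            pow_le_pow_left₀ (norm_nonneg _) e3 2
        _ = K ^ 2 * (∫ p, ψ p.1 * s l p ∂(P Ω)) ^ 2 := by ring
        _ ≤ K ^ 2 * (m₀ * ∫ p, ψ p.1 * s l p ^ 2 ∂(P Ω)) :=
            mul_le_mul_of_nonneg_left (wcs (P Ω) (fun p => ψ p.1) (s l) (fun p => hψ0 _) hψi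
              (hi1 l) (hi2 l)) (sq_nonneg K)
    -- the limit of the right side
    have t3 : Tendsto (fun l => ∫ p, ψ p.1 * s l p ^ 2 ∂(P Ω)) atTop
        (𝓝 (m₀ * ∫ F, ‖∑ m, c m * eJ (τ m).1 F‖ ^ 2 ∂(pr d γ))) := by
      have e1 : ∀ l, ((∫ p, ψ p.1 * s l p ^ 2 ∂(P Ω) : ℝ) : ℂ) = ∑ m, ∑ m',
          (c m * (starRingEnd ℂ) (c m')) * ∫ p, (ψ p.1 : ℂ) * eXJ (fun i => lam i l)
            (fun i => u i l) (fun i => (τ m).1 i - (τ m').1 i) p ∂(P Ω) := by
        intro l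
        rw [← integral_complex_ofReal]
        have e2 : ∀ p, ((ψ p.1 * s l p ^ 2 : ℝ) : ℂ) = ∑ m, ∑ m',
            (c m * (starRingEnd ℂ) (c m')) * ((ψ p.1 : ℂ) * eXJ (fun i => lam i l)
              (fun i => u i l) (fun i => (τ m).1 i - (τ m').1 i) p) := by
          intro p
          rw [Complex.ofReal_mul, hs, sq_sum, Finset.mul_sum]
          refine Finset.sum_congr rfl fun m _ => ?_
          rw [Finset.mul_sum]
          refine Finset.sum_congr rfl fun m' _ => ?_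
          rw [eXJ_sub]
          ring
        simp_rw [e2]
        rw [integral_finsetSum _ fun m _ => integrable_finsetSum _ fun m' _ =>
          (hψX _ l).const_mul _]
        refine Finset.sum_congr rfl fun m _ => ?_
        rw [integral_finsetSum _ fun m' _ => (hψX _ l).const_mul _]
        exact Finset.sum_congr rfl fun m' _ => integral_const_mul _ _
      have e3 : ((m₀ * ∫ F, ‖∑ m, c m * eJ (τ m).1 F‖ ^ 2 ∂(pr d γ) : ℝ) : ℂ) = ∑ m, ∑ m',
          (c m * (starRingEnd ℂ) (c m')) * ((∏ i, ∫ f, eγ ((τ m).1 i - (τ m').1 i) f ∂γ) *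
            (m₀ : ℂ)) := by
        have hJi : ∀ τ : Fin d → ℂ →₀ ℝ, Integrable (eJ τ) (pr d γ) := fun τ =>
          Integrable.of_bound (eJ_meas τ).aestronglyMeasurable 1
            (Eventually.of_forall fun F => (eJ_norm τ F).le)
        have e4 : ((∫ F, ‖∑ m, c m * eJ (τ m).1 F‖ ^ 2 ∂(pr d γ) : ℝ) : ℂ) = ∑ m, ∑ m',
            (c m * (starRingEnd ℂ) (c m')) * ∏ i, ∫ f, eγ ((τ m).1 i - (τ m').1 i) f ∂γ := by
          rw [← integral_complex_ofReal]
          have e5 : ∀ F, ((‖∑ m, c m * eJ (τ m).1 F‖ ^ 2 : ℝ) : ℂ) = ∑ m, ∑ m',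
              (c m * (starRingEnd ℂ) (c m')) * eJ (fun i => (τ m).1 i - (τ m').1 i) F := by
            intro F
            rw [sq_sum]
            refine Finset.sum_congr rfl fun m _ => Finset.sum_congr rfl fun m' _ => ?_
            rw [eJ_sub]
          simp_rw [e5]
          rw [integral_finsetSum _ fun m _ => integrable_finsetSum _ fun m' _ =>
            (hJi _).const_mul _]
          refine Finset.sum_congr rfl fun m _ => ?_
          rw [integral_finsetSum _ fun m' _ => (hJi _).const_mul _]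
          refine Finset.sum_congr rfl fun m' _ => ?_
          rw [integral_const_mul, int_eJ]
        rw [Complex.ofReal_mul, e4, Finset.mul_sum]
        refine Finset.sum_congr rfl fun m _ => ?_
        rw [Finset.mul_sum]
        exact Finset.sum_congr rfl fun m' _ => by ring
      have e6 : Tendsto (fun l => ((∫ p, ψ p.1 * s l p ^ 2 ∂(P Ω) : ℝ) : ℂ)) atTop
          (𝓝 ((m₀ * ∫ F, ‖∑ m, c m * eJ (τ m).1 F‖ ^ 2 ∂(pr d γ) : ℝ) : ℂ)) := by
        rw [e3]
        simp_rw [e1]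
        refine tendsto_finsetSum _ fun m _ => tendsto_finsetSum _ fun m' _ =>
          Tendsto.const_mul _ ?_
        have e7 := hconv (fun i => (τ m).1 i - (τ m').1 i) (fun i hi => by
          show (τ m).1 i - (τ m').1 i = 0
          rw [(τ m).2 i hi, (τ m').2 i hi, sub_zero])
        rw [hm₀c] at e7
        exact e7
      exact (Complex.continuous_re.tendsto _).comp e6
    have t4 : Tendsto (fun l => K ^ 2 * (m₀ * ∫ p, ψ p.1 * s l p ^ 2 ∂(P Ω))) g
        (𝓝 (K ^ 2 * (m₀ * (m₀ * ∫ F, ‖∑ m, c m * eJ (τ m).1 F‖ ^ 2 ∂(pr d γ))))) :=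
      ((t3.mono_left hg).const_mul m₀).const_mul (K ^ 2)
    refine (le_of_tendsto_of_tendsto t1 t4 (Eventually.of_forall t2)).trans (le_of_eq ?_)
    ring
  obtain ⟨h, hh, hrep⟩ := h1 (Fin d → MW) inferInstance (pr d γ) hpr
    {τ : Fin d → ℂ →₀ ℝ // On A τ} (fun k => eJ k.1) (fun k => L k.1) (K ^ 2 * m₀ ^ 2)
    (fun k => eJ_meas k.1) (fun k x => (eJ_norm k.1 x).le) hbound
  have hcore := h2 d Ω lam u H hst γ hγp hγ A S hAS χ (Or.inl hχ) σ hσ g hg h hh (by
    intro τ hτ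
    rw [← hrep ⟨τ, hτ⟩]
    exact hL τ) τ₀ hτ₀
  have hz : On A (0 : Fin d → ℂ →₀ ℝ) := fun i _ => rfl
  have hone : ∫ F, (starRingEnd ℂ) (h F) ∂(pr d γ) = L 0 := by
    rw [hrep ⟨0, hz⟩]
    refine integral_congr_ae (Eventually.of_forall fun F => ?_)
    simp only [eJ_zero, mul_one]
  have hL0 : Tendsto (fun n => ∫ p, (χ p.1 : ℂ) *
      eXJ (fun i => lam i n) (fun i => u i n) σ p ∂(P Ω)) g (𝓝 (L 0)) := by
    refine (hL 0).congr fun n => ?_
    have e : (fun i => (0 : Fin d → ℂ →₀ ℝ) i + σ i) = σ := funext fun i => zero_add _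
    rw [hGn]
    simp only [e]
  rw [hone, ← hrep ⟨τ₀, hτ₀⟩] at hcore
  have hfin := (hL τ₀).sub (hL0.const_mul (∏ i, ∫ f, eγ (τ₀ i) f ∂γ))
  have e0 : L τ₀ - (∏ i, ∫ f, eγ (τ₀ i) f ∂γ) * L 0 = 0 := sub_eq_zero.2 hcore
  rw [e0] at hfin
  exact hfin

end

end Pool.Agent.H161.JM
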